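import Pool.Agent.Run7.h921.NF.ISO

/-!
# MP_cd906c_nt: piece ADD

The unramified places with additive reduction.
-/

set_option autoImplicit false

namespace Run7.h921.NF

open NumberField IsDedekindDomain WeierstrassCurve
open Run7.h428.NF
open Pool.Agent.W189.NF (aV eV aLoc eLoc Ov finite_res card_res)
open Pool.Agent.H921R2.TatePole (below deg nm nm_eq)
open Pool.Agent.Y698 (min_add' mv v_unit)
open Run7.h555.P15 (WT coeffs)

/-- integers prime to the residue characteristic are units -/
theorem unit_int {F : Type} [Field F] [NumberField F] (v : HeightOneSpectrum (𝓞 F)) {m : ℤ}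
    (hm : ¬ ((below v : ℕ) : ℤ) ∣ m) : IsUnit ((m : ℤ) : Ov v) := by
  obtain ⟨n1, n2, n3⟩ := nm_eq v
  by_contra hcon
  have h1 : IsLocalRing.residue (Ov v) ((m : ℤ) : Ov v) = 0 :=
    (IsLocalRing.residue_eq_zero_iff _).2 ((IsLocalRing.mem_maximalIdeal _).2 hcon)
  rw [map_intCast] at h1
  have hfin := finite_res v
  have hcard : Nat.card (IsLocalRing.ResidueField (Ov v)) = (below v : ℕ) ^ deg v := by
    rw [← n1]
    exact card_res v
  have h2 : ((below v : ℕ) : IsLocalRing.ResidueField (Ov v)) = 0 := by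
    have h2 : ((Nat.card (IsLocalRing.ResidueField (Ov v)) : ℕ) :
        IsLocalRing.ResidueField (Ov v)) = 0 := by
      have := Fintype.ofFinite (IsLocalRing.ResidueField (Ov v))
      rw [Nat.card_eq_fintype_card]
      exact Nat.cast_card_eq_zero _
    rw [hcard] at h2
    push_cast at h2
    exact (pow_eq_zero_iff n2.ne').1 h2
  have hpr : Prime ((below v : ℕ) : ℤ) := Nat.prime_iff_prime_int.1 (below v).2
  have hcop : IsCoprime ((below v : ℕ) : ℤ) m := (hpr.irreducible.coprime_iff_not_dvd).2 hm
  obtain ⟨s, t, hst⟩ := hcop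
  have h3 := congrArg (fun z : ℤ => (z : IsLocalRing.ResidueField (Ov v))) hst
  push_cast at h3
  rw [h1, h2, mul_zero, mul_zero, add_zero] at h3
  exact zero_ne_one h3

theorem t_ADD : S_ADD := by
  intro F _ _ v D hD hdvd hnd h3 h5 hv
  have hch : CharZero (v.adicCompletion F) :=
    charZero_of_injective_algebraMap (algebraMap F (v.adicCompletion F)).injective
  have hpr : Prime ((below v : ℕ) : ℤ) := Nat.prime_iff_prime_int.1 (below v).2
  have h8 := mv v hv
  set ν := (IsDiscreteValuationRing.maximalIdeal (v.adicCompletionIntegers F)).valuation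
      (v.adicCompletion F) with hν
  have hvp : ∀ m : ℤ, ¬ ((below v : ℕ) : ℤ) ∣ m → ν ((m : ℤ) : v.adicCompletion F) = 1 := by
    intro m hm
    have h1 := v_unit (v.adicCompletionIntegers F) (L := v.adicCompletion F) (unit_int v hm)
    rw [map_intCast] at h1
    exact h1
  have hle : ∀ m : ℤ, ν ((m : ℤ) : v.adicCompletion F) ≤ 1 := by
    intro m
    have : ((m : ℤ) : v.adicCompletion F) =
      algebraMap (Ov v) (v.adicCompletion F) ((m : ℤ) : Ov v) := (map_intCast _ _).symm
    rw [this]
    exact HeightOneSpectrum.valuation_le_one _ _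
  have h15 : ¬ ((below v : ℕ) : ℤ) ∣ 15 := by
    intro h
    have h1 : ((below v : ℕ) : ℤ) ∣ 3 * 5 := by
      norm_num
      exact h
    rcases hpr.dvd_or_dvd h1 with h2 | h2
    · exact h3 ((Nat.prime_dvd_prime_iff_eq (below v).2 (by norm_num)).1 (by exact_mod_cast h2))
    · exact h5 ((Nat.prime_dvd_prime_iff_eq (below v).2 (by norm_num)).1 (by exact_mod_cast h2))
  obtain ⟨m, hm⟩ := hdvd
  have hmn : ¬ ((below v : ℕ) : ℤ) ∣ m := by
    rintro ⟨c, hc⟩
    exact hnd ⟨c, by rw [hm, hc]; ring⟩
  have hW : (EF F D).baseChange (v.adicCompletion F) = EF (v.adicCompletion F) D := by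
    unfold EF WeierstrassCurve.baseChange
    rw [WeierstrassCurve.map_map]
    congr 1
    exact RingHom.ext_int _ _
  have hw15 : ν (15 : v.adicCompletion F) = 1 := by
    have := hvp 15 h15
    push_cast at this
    exact this
  have h15' : (15 : v.adicCompletion F) ≠ 0 := by norm_num
  have hΔe : (EF (v.adicCompletion F) D).Δ = 15 ^ 4 * (D : v.adicCompletion F) ^ 6 := by
    rw [EF_eq hD]
    simp only [WeierstrassCurve.Δ, WeierstrassCurve.b₂, WeierstrassCurve.b₄,
      WeierstrassCurve.b₆, WeierstrassCurve.b₈]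
    field_simp
    ring
  have hce : (EF (v.adicCompletion F) D).c₄ = 481 * (D : v.adicCompletion F) ^ 2 := by
    rw [EF_eq hD]
    simp only [WeierstrassCurve.c₄, WeierstrassCurve.b₂, WeierstrassCurve.b₄]
    field_simp
    ring
  have hjv : ν ((481 : v.adicCompletion F) ^ 3 / 15 ^ 4) ≤ 1 := by
    rw [map_div₀, map_pow, map_pow, hw15, one_pow, div_one]
    have := hle 481
    push_cast at this
    exact pow_le_one₀ zero_le this
  have hj3 : ((EF F D).baseChange (v.adicCompletion F)).c₄ ^ 3 =
      ((481 : v.adicCompletion F) ^ 3 / 15 ^ 4) *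
        ((EF F D).baseChange (v.adicCompletion F)).Δ := by
    rw [hW, hΔe, hce]
    field_simp
  have hΔ : ν ((EF F D).baseChange (v.adicCompletion F)).Δ = WithZero.exp (-((6 : ℕ) : ℤ)) := by
    rw [hW, hΔe, hm]
    push_cast
    rw [map_mul, map_pow, hw15, one_pow, one_mul, map_pow, map_mul, hvp m hmn, mul_one, h8,
      ← WithZero.exp_nsmul]
    rfl
  exact min_add' (v.adicCompletionIntegers F) (by norm_num) hΔ hjv hj3

end Run7.h921.NF
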