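import Pool.Agent.Run7.h428.NF.Stm

/-!
# MP_cd906c_nt: piece ISO

The twists of `X_0(15)` by numbers in the same square class are isomorphic.
-/

set_option autoImplicit false

namespace Run7.h921.NF

open WeierstrassCurve
open Run7.h428.NF
open Run7.h555.P15 (WT coeffs)

/-- the coefficients of the twist in characteristic zero -/
theorem EF_eq {F : Type} [Field F] [CharZero F] {D : ℤ} (hD : D % 4 = 1) :
    EF F D = ⟨1, (5 * (D : F) - 1) / 4, 1, -((19 * (D : F) ^ 2 + 1) / 2),
      -((39 * (D : F) ^ 3 + 1) / 4)⟩ := by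
  obtain ⟨c1, c2, c3⟩ := coeffs hD
  have d1 : (((5 * D - 1) / 4 : ℤ) : F) = (5 * (D : F) - 1) / 4 := by
    have := congrArg (Int.cast : ℤ → F) c1
    push_cast at this
    rw [eq_div_iff (by norm_num)]
    linear_combination this
  have d2 : (((19 * D ^ 2 + 1) / 2 : ℤ) : F) = (19 * (D : F) ^ 2 + 1) / 2 := by
    have := congrArg (Int.cast : ℤ → F) c2
    push_cast at this
    rw [eq_div_iff (by norm_num)]
    linear_combination this
  have d3 : (((39 * D ^ 3 + 1) / 4 : ℤ) : F) = (39 * (D : F) ^ 3 + 1) / 4 := by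
    have := congrArg (Int.cast : ℤ → F) c3
    push_cast at this
    rw [eq_div_iff (by norm_num)]
    linear_combination this
  unfold EF WT
  ext
  · exact Int.cast_one
  · exact d1
  · exact Int.cast_one
  · change ((-((19 * D ^ 2 + 1) / 2) : ℤ) : F) = _
    rw [Int.cast_neg, d2]
  · change ((-((39 * D ^ 3 + 1) / 4) : ℤ) : F) = _
    rw [Int.cast_neg, d3]

theorem t_ISO : S_ISO := by
  intro F _ _ D D' z hD hD' hz
  have hD0 : (D : F) ≠ 0 := by
    have : D ≠ 0 := by omega
    exact_mod_cast this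
  have hD0' : (D' : F) ≠ 0 := by
    have : D' ≠ 0 := by omega
    exact_mod_cast this
  have hz0 : z ≠ 0 := by
    rintro rfl
    rw [zero_pow two_ne_zero] at hz
    push_cast at hz
    exact mul_ne_zero hD0 hD0' hz.symm
  rw [EF_eq hD, EF_eq hD']
  obtain ⟨w, hw⟩ : ∃ w : F, w = z / D := ⟨_, rfl⟩
  have hw0 : w ≠ 0 := by
    rw [hw]
    exact div_ne_zero hz0 hD0
  have hwD : (D' : F) = w ^ 2 * D := by
    rw [hw, div_pow, hz]
    push_cast
    field_simp
  have hi : w⁻¹ ≠ 0 := inv_ne_zero hw0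
  refine ⟨⟨Units.mk0 w⁻¹ hi, 0, (w⁻¹ - 1) / 2, (w⁻¹ ^ 3 - 1) / 2⟩, ?_⟩
  have hu : (((Units.mk0 w⁻¹ hi)⁻¹ : Fˣ) : F) = w := by
    simp
  rw [hwD]
  ext
  · simp only [variableChange_a₁, hu]
    field_simp
    ring
  · simp only [variableChange_a₂, hu]
    field_simp
    ring
  · simp only [variableChange_a₃, hu]
    field_simp
    ring
  · simp only [variableChange_a₄, hu]
    field_simp
    ring
  · simp only [variableChange_a₆, hu]
    field_simp
    ring

end Run7.h921.NF
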