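import Pool.Agent.Run7.h428.NF.Fld
import Pool.Agent.Run7.h921.NF.ISO
import Pool.Agent.Y682.Rk
import Pool.Agent.Y700.VC

/-!
# MP_cd906c_nt: piece RK

The points of the twist by `-n` of `X_0(15)` over a multiquadratic field are finite, if those over
`ℚ` of all the twists are. Port of `Pool/Agent/Run7/h401/MQ/Rk.lean`.
-/

set_option autoImplicit false
set_option linter.unusedSectionVars false

open scoped symmDiff

namespace Run7.h921.NF

open WeierstrassCurve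
open Run7.h428.NF
open Pool.Agent.Y682 Pool.Agent.TH841.NF

section mu

variable {k k' : Type} [Field k] [Field k'] {ι : k →+* k'} {u : k'} {W : WeierstrassCurve k}
  {W' : WeierstrassCurve k'}

theorem pt_ext' {x y x' y' : k} {h : W.toAffine.Nonsingular x y} {h' : W.toAffine.Nonsingular x' y'}
    (hx : x = x') (hy : y = y') :
    (Affine.Point.some x y h : W.toAffine.Point) = Affine.Point.some x' y' h' := by
  subst hx hy
  rfl

theorem pt_inj {x y x' y' : k} {h : W.toAffine.Nonsingular x y} {h' : W.toAffine.Nonsingular x' y'}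
    (e : (Affine.Point.some x y h : W.toAffine.Point) = Affine.Point.some x' y' h') :
    x = x' ∧ y = y' := by
  rwa [Affine.Point.some.injEq] at e

/-- the map on points -/
noncomputable def mu (S : Sc ι u W W') : MP W →+ MP W' where
  toFun := tF S
  map_zero' := rfl
  map_add' := @tF_add _ _ _ _ _ _ _ _ S (Classical.decEq k) (Classical.decEq k')

end mu

/-- the curve `y² = x³ + 34 n x² + 225 n² x`, a twist of `X_0(15)` -/
def cv (n : ℕ) (k : Type) [Field k] : WeierstrassCurve k := ⟨0, 34 * n, 0, 225 * n ^ 2, 0⟩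

theorem cv_isT {n : ℕ} (hn : n ≠ 0) (k : Type) [Field k] [CharZero k] :
    IsT (cv n k) (34 * n : k) (225 * n ^ 2 : k) where
  h1 := rfl
  h2 := rfl
  h3 := rfl
  h4 := rfl
  h6 := rfl
  hB := by
    have : (n : k) ≠ 0 := Nat.cast_ne_zero.2 hn
    exact mul_ne_zero (by norm_num) (pow_ne_zero 2 this)
  hD := by
    have h1 : (n : k) ≠ 0 := Nat.cast_ne_zero.2 hn
    have e : (34 * (n : k)) ^ 2 - 4 * (225 * (n : k) ^ 2) = 256 * (n : k) ^ 2 := by ring
    rw [e]
    exact mul_ne_zero (by norm_num) (pow_ne_zero 2 h1)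

/-- the product over the symmetric difference -/
theorem prod_sd (S T : Finset ℕ) :
    (∏ l ∈ S, l) * ∏ l ∈ T, l = (∏ l ∈ symmDiff S T, l) * (∏ l ∈ S ∩ T, l) ^ 2 := by
  have h1 : ∏ l ∈ S, l = (∏ l ∈ S \ T, l) * ∏ l ∈ S ∩ T, l := by
    rw [← Finset.prod_union (Finset.disjoint_sdiff_inter S T), Finset.sdiff_union_inter]
  have h2 : ∏ l ∈ T, l = (∏ l ∈ T \ S, l) * ∏ l ∈ S ∩ T, l := by
    rw [Finset.inter_comm, ← Finset.prod_union (Finset.disjoint_sdiff_inter T S),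
      Finset.sdiff_union_inter]
  have h3 : ∏ l ∈ symmDiff S T, l = (∏ l ∈ S \ T, l) * ∏ l ∈ T \ S, l := by
    have h4 : symmDiff S T = (S \ T) ∪ (T \ S) := rfl
    rw [h4, Finset.prod_union]
    exact disjoint_sdiff_sdiff
  rw [h1, h2, h3]
  ring

/-- the number whose square is the quotient -/
def mm (n : ℕ) (T : Finset ℕ) : ℕ := ∏ l ∈ n.primeFactors ∩ T, l

theorem mm_ne (n : ℕ) (T : Finset ℕ) : mm n T ≠ 0 :=
  Finset.prod_ne_zero_iff.2 fun _ hl =>
    (Nat.prime_of_mem_primeFactors (Finset.mem_inter.1 hl).1).ne_zero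

theorem tn_mul {n : ℕ} (hn : Squarefree n) (T : Finset ℕ) :
    n * ∏ l ∈ T, l = tn n T * mm n T ^ 2 := by
  have h1 := prod_sd n.primeFactors T
  rw [Nat.prod_primeFactors_of_squarefree hn] at h1
  exact h1

section

variable {F : Type} [Field F] [NumberField F] {H : Finset (Finset ℕ)} {r : Finset ℕ → F}

theorem sc_gal (n : ℕ) (σ : F ≃ₐ[ℚ] F) : Sc (σ : F →+* F) 1 (cv n F) (cv n F) := by
  refine ⟨one_ne_zero, ?_, ?_, ?_, ?_, ?_⟩
  · simp [cv]
  · simp only [cv]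
    rw [map_mul, map_ofNat, map_natCast]
    ring
  · simp [cv]
  · simp only [cv]
    rw [map_mul, map_ofNat, map_pow, map_natCast]
    ring
  · simp [cv]

/-- the action of the Galois group -/
noncomputable def ga (n : ℕ) (σ : F ≃ₐ[ℚ] F) : MP (cv n F) →+ MP (cv n F) := mu (sc_gal n σ)

theorem ga_mul (n : ℕ) (σ τ : F ≃ₐ[ℚ] F) (P : MP (cv n F)) : ga n (σ * τ) P = ga n σ (ga n τ P) := by
  rcases P with _ | ⟨x, y, h⟩
  · rfl
  · refine pt_ext' (W := cv n F) ?_ ?_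
    · change σ (τ x) * 1 ^ 2 = σ (τ x * 1 ^ 2) * 1 ^ 2
      simp
    · change σ (τ y) * 1 ^ 3 = σ (τ y * 1 ^ 3) * 1 ^ 3
      simp

theorem ga_one (n : ℕ) (P : MP (cv n F)) : ga n (1 : F ≃ₐ[ℚ] F) P = P := by
  rcases P with _ | ⟨x, y, h⟩
  · rfl
  · refine pt_ext' (W := cv n F) ?_ ?_
    · change x * 1 ^ 2 = x
      simp
    · change y * 1 ^ 3 = y
      simp

open Classical in
/-- the sign -/
noncomputable def sg (r : Finset ℕ → F) (T : Finset ℕ) (σ : F ≃ₐ[ℚ] F) : ℤ :=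
  if σ (r T) = r T then 1 else -1

theorem sg_spec (h : MQ F H r) {T : Finset ℕ} (hT : T ∈ H) (σ : F ≃ₐ[ℚ] F) :
    σ (r T) = sg r T σ * r T := by
  unfold sg
  split_ifs with h1
  · rw [Int.cast_one, one_mul, h1]
  · rw [(h.sgn σ hT).resolve_left h1]
    simp

theorem sg_cases (r : Finset ℕ → F) (T : Finset ℕ) (σ : F ≃ₐ[ℚ] F) : sg r T σ = 1 ∨ sg r T σ = -1 := by
  unfold sg
  split_ifs
  · exact Or.inl rfl
  · exact Or.inr rfl

theorem sg_uniq (h : MQ F H r) {T : Finset ℕ} (hT : T ∈ H) {σ : F ≃ₐ[ℚ] F} {s : ℤ}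
    (hs : σ (r T) = s * r T) : sg r T σ = s := by
  have h1 := sg_spec h hT σ
  rw [hs] at h1
  exact_mod_cast (mul_right_cancel₀ (h.r_ne hT) h1).symm

theorem sg_mul (h : MQ F H r) {T : Finset ℕ} (hT : T ∈ H) (σ τ : F ≃ₐ[ℚ] F) :
    sg r T (σ * τ) = sg r T σ * sg r T τ := by
  apply sg_uniq h hT
  rw [AlgEquiv.mul_apply, sg_spec h hT τ, map_mul, map_intCast, sg_spec h hT σ]
  push_cast
  ring

theorem sg_sd (h : MQ F H r) {T T' : Finset ℕ} (hT : T ∈ H) (hT' : T' ∈ H) (σ : F ≃ₐ[ℚ] F) :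
    sg r (symmDiff T T') σ = sg r T σ * sg r T' σ := by
  have hsd := h.sd T hT T' hT'
  apply sg_uniq h hsd
  have hn : ((∏ l ∈ T ∩ T', l : ℕ) : F) ≠ 0 := by
    rw [Nat.cast_ne_zero]
    exact Finset.prod_ne_zero_iff.2 fun l hl => (h.pr T hT l (Finset.mem_inter.1 hl).1).ne_zero
  have h1 : σ (r T * r T') = (sg r T σ * sg r T' σ : ℤ) * (r T * r T') := by
    rw [map_mul, sg_spec h hT σ, sg_spec h hT' σ]
    push_cast
    ring
  apply mul_left_cancel₀ hn
  rcases h.mul hT hT' with h4 | h4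
  · rw [h4, map_mul, map_natCast] at h1
    rw [h1]
    ring
  · rw [h4, map_neg, map_mul, map_natCast] at h1
    linear_combination -h1

/-- orthogonality -/
theorem orth (h : MQ F H r) {σ : F ≃ₐ[ℚ] F} (hσ : σ ≠ 1) : ∑ T ∈ H, sg r T σ = 0 := by
  classical
  have h1 : ∃ T0 ∈ H, sg r T0 σ = -1 := by
    by_contra hcon
    push Not at hcon
    apply hσ
    refine h.eq_one fun T hT => ?_
    have h2 := (sg_cases r T σ).resolve_right (hcon T hT)
    rw [sg_spec h hT σ, h2, Int.cast_one, one_mul]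
  obtain ⟨T0, hT0, h0⟩ := h1
  have h2 : ∑ T ∈ H, sg r T σ = ∑ T ∈ H, sg r (symmDiff T T0) σ := by
    refine Finset.sum_bij' (fun T _ => symmDiff T T0) (fun T _ => symmDiff T T0) ?_ ?_ ?_ ?_ ?_
    · exact fun T hT => h.sd T hT T0 hT0
    · exact fun T hT => h.sd T hT T0 hT0
    · exact fun T _ => symmDiff_symmDiff_cancel_right T0 T
    · exact fun T _ => symmDiff_symmDiff_cancel_right T0 T
    · intro T _
      simp only [symmDiff_symmDiff_cancel_right]
  have h3 : ∑ T ∈ H, sg r (symmDiff T T0) σ = -∑ T ∈ H, sg r T σ := by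
    rw [← Finset.sum_neg_distrib]
    refine Finset.sum_congr rfl fun T hT => ?_
    rw [sg_sd h hT hT0, h0]
    ring
  omega

/-- the scaling factor -/
noncomputable def uu (r : Finset ℕ → F) (n : ℕ) (T : Finset ℕ) : F := (mm n T : F) * (r T)⁻¹

theorem uu_sq (h : MQ F H r) {T : Finset ℕ} (hT : T ∈ H) {n : ℕ} (hn : Squarefree n) :
    (tn n T : F) * uu r n T ^ 2 = n := by
  have hr := h.r_ne hT
  have h2 := h.sq T hT
  have h3 := congrArg (Nat.cast : ℕ → F) (tn_mul hn T)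
  rw [Nat.cast_mul, Nat.cast_mul, Nat.cast_pow, ← h2] at h3
  unfold uu
  field_simp
  linear_combination -h3

theorem sc_tw (h : MQ F H r) {T : Finset ℕ} (hT : T ∈ H) {n : ℕ} (hn : Squarefree n) :
    Sc (algebraMap ℚ F) (uu r n T) (cv (tn n T) ℚ) (cv n F) := by
  have hr := h.r_ne hT
  have e2 := uu_sq h hT hn
  refine ⟨mul_ne_zero (Nat.cast_ne_zero.2 (mm_ne n T)) (inv_ne_zero hr), ?_, ?_, ?_, ?_, ?_⟩
  · simp [cv]
  · simp only [cv, map_mul, map_natCast, map_ofNat]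
    linear_combination (-34) * e2
  · simp [cv]
  · simp only [cv, map_mul, map_natCast, map_ofNat, map_pow]
    linear_combination (-225) * ((tn n T : F) * uu r n T ^ 2 + n) * e2
  · simp [cv]

/-- the points in the eigenspaces are defined over the rational numbers -/
theorem desc (h : MQ F H r) {T : Finset ℕ} (hT : T ∈ H) {n : ℕ} (hn : Squarefree n)
    {R : MP (cv n F)} (hR : ∀ σ : F ≃ₐ[ℚ] F, ga n σ R = sg r T σ • R) :
    ∃ Q : MP (cv (tn n T) ℚ), mu (sc_tw h hT hn) Q = R := by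
  have hG := h.isGalois
  have hr := h.r_ne hT
  have hm : ((mm n T : ℕ) : F) ≠ 0 := Nat.cast_ne_zero.2 (mm_ne n T)
  have hfix : ∀ z : F, (∀ σ : F ≃ₐ[ℚ] F, σ z = z) → ∃ q : ℚ, algebraMap ℚ F q = z := by
    intro z hz
    have h3 : z ∈ (⊥ : IntermediateField ℚ F) := by
      rw [IsGalois.mem_bot_iff_fixed]
      exact hz
    exact IntermediateField.mem_bot.1 h3
  have hR' : ∀ σ : F ≃ₐ[ℚ] F, (sg r T σ = 1 ∧ ga n σ R = R) ∨ (sg r T σ = -1 ∧ ga n σ R = -R) := by
    intro σ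
    have h1 := hR σ
    rcases sg_cases r T σ with h2 | h2
    · rw [h2, one_smul] at h1
      exact Or.inl ⟨h2, h1⟩
    · rw [h2, neg_smul, one_smul] at h1
      exact Or.inr ⟨h2, h1⟩
  rcases R with _ | ⟨x, y, hxy⟩
  · exact ⟨0, rfl⟩
  · have key : ∀ σ : F ≃ₐ[ℚ] F, σ x = x ∧ σ y = sg r T σ * y := by
      intro σ
      rcases hR' σ with ⟨h2, h1⟩ | ⟨h2, h1⟩
      · have h3 : σ x * 1 ^ 2 = x ∧ σ y * 1 ^ 3 = y := pt_inj (W := cv n F) h1
        rw [h2]
        simpa using h3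
      · have h4 : σ x * 1 ^ 2 = x ∧ σ y * 1 ^ 3 = -y - (cv n F).a₁ * x - (cv n F).a₃ :=
          pt_inj (W := cv n F) h1
        rw [h2]
        simpa [cv] using h4
    obtain ⟨a, ha⟩ := hfix x fun σ => (key σ).1
    obtain ⟨b, hb⟩ := hfix (y * r T ^ 3) fun σ => by
      rw [map_mul, map_pow, (key σ).2, sg_spec h hT σ]
      rcases sg_cases r T σ with h2 | h2
      · rw [h2]; simp
      · rw [h2]; push_cast; ring
    have e1 : algebraMap ℚ F (a * ((∏ l ∈ T, l : ℕ) : ℚ) / (mm n T : ℚ) ^ 2) * uu r n T ^ 2 = x := by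
      rw [map_div₀, map_mul, map_pow, map_natCast, map_natCast, ha, ← h.sq T hT]
      unfold uu
      field_simp
    have e2 : algebraMap ℚ F (b / (mm n T : ℚ) ^ 3) * uu r n T ^ 3 = y := by
      rw [map_div₀, map_pow, map_natCast, hb]
      unfold uu
      field_simp
    have hns : (cv (tn n T) ℚ).toAffine.Nonsingular
        (a * ((∏ l ∈ T, l : ℕ) : ℚ) / (mm n T : ℚ) ^ 2) (b / (mm n T : ℚ) ^ 3) := by
      rw [← ns_iff (sc_tw h hT hn), e1, e2]
      exact hxy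
    exact ⟨Affine.Point.some _ _ hns, pt_ext' (W := cv n F) e1 e2⟩

/-- **finiteness over the field** -/
theorem fin (h : MQ F H r) {n : ℕ} (hn : Squarefree n)
    (hf : ∀ T ∈ H, Finite (MP (cv (tn n T) ℚ))) : Finite (MP (cv n F)) := by
  classical
  have hG := h.isGalois
  have hfg : Module.Finite ℤ (MP (cv n F)) := fg_MP (cv_isT hn.ne_zero F)
  apply Module.finite_of_fg_torsion
  let proj : Finset ℕ → MP (cv n F) → MP (cv n F) := fun T P => ∑ σ : F ≃ₐ[ℚ] F, sg r T σ • ga n σ P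
  have hpr : ∀ T ∈ H, ∀ (τ : F ≃ₐ[ℚ] F) (P : MP (cv n F)),
      ga n τ (proj T P) = sg r T τ • proj T P := by
    intro T hT τ P
    simp only [proj]
    rw [map_sum, Finset.smul_sum]
    rw [← Equiv.sum_comp (Equiv.mulLeft τ) (fun σ => sg r T τ • (sg r T σ • ga n σ P))]
    refine Finset.sum_congr rfl fun σ _ => ?_
    rw [map_zsmul, Equiv.coe_mulLeft, ga_mul, sg_mul h hT, smul_smul, ← mul_assoc]
    have : sg r T τ * sg r T τ = 1 := by
      rcases sg_cases r T τ with h2 | h2 <;> rw [h2] <;> norm_num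
    rw [this, one_mul]
  have hsum : ∀ P : MP (cv n F), ∑ T ∈ H, proj T P = (H.card : ℤ) • P := by
    intro P
    simp only [proj]
    rw [Finset.sum_comm]
    have h1 : ∀ σ : F ≃ₐ[ℚ] F, ∑ T ∈ H, sg r T σ • ga n σ P = (∑ T ∈ H, sg r T σ) • ga n σ P :=
      fun σ => (Finset.sum_smul).symm
    rw [Finset.sum_congr rfl (fun σ _ => h1 σ), Finset.sum_eq_single (1 : F ≃ₐ[ℚ] F)]
    · rw [ga_one]
      congr 1
      have : ∀ T ∈ H, sg r T (1 : F ≃ₐ[ℚ] F) = 1 := by
        intro T hT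
        apply sg_uniq h hT
        simp
      rw [Finset.sum_congr rfl this]
      simp
    · intro σ _ hσ
      rw [orth h hσ, zero_smul]
    · exact fun h => absurd (Finset.mem_univ _) h
  have htor : ∀ T ∈ H, ∃ c : ℤ, c ≠ 0 ∧ ∀ P : MP (cv n F), c • proj T P = 0 := by
    intro T hT
    have := hf T hT
    refine ⟨(Nat.card (MP (cv (tn n T) ℚ)) : ℤ), ?_, fun P => ?_⟩
    · exact_mod_cast Nat.card_pos.ne'
    · obtain ⟨Q, hQ⟩ := desc h hT hn fun σ => hpr T hT σ P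
      rw [← hQ, ← map_zsmul, natCast_zsmul, card_nsmul_eq_zero', map_zero]
  choose! c hc0 hc using htor
  intro P
  have hN : (H.card : ℤ) * ∏ T ∈ H, c T ≠ 0 := by
    refine mul_ne_zero ?_ (Finset.prod_ne_zero_iff.2 hc0)
    have : 0 < H.card := Finset.card_pos.2 ⟨∅, h.emp⟩
    exact_mod_cast this.ne'
  refine ⟨⟨(H.card : ℤ) * ∏ T ∈ H, c T, mem_nonZeroDivisors_of_ne_zero hN⟩, ?_⟩
  change ((H.card : ℤ) * ∏ T ∈ H, c T) • P = 0
  rw [mul_comm, mul_smul, ← hsum, Finset.smul_sum]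
  refine Finset.sum_eq_zero fun T hT => ?_
  rw [← Finset.prod_erase_mul H c hT, mul_smul, hc T hT, smul_zero]

end

/-- the discriminant of the twist -/
theorem EF_Δ {F : Type} [Field F] [CharZero F] {D : ℤ} (hD : D % 4 = 1) :
    (EF F D).Δ = 15 ^ 4 * (D : F) ^ 6 := by
  rw [EF_eq hD]
  simp only [WeierstrassCurve.Δ, WeierstrassCurve.b₂, WeierstrassCurve.b₄,
    WeierstrassCurve.b₆, WeierstrassCurve.b₈]
  field_simp
  ring

/-- the change of the equation -/
theorem vr {F : Type} [Field F] [CharZero F] {n : ℕ} (hn : (-(n : ℤ)) % 4 = 1) :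
    Pool.Agent.Y700.VR (cv n F) (EF F (-(n : ℤ))) 2 (-(13 * n)) 1 4 := by
  rw [EF_eq hn]
  refine ⟨two_ne_zero, ?_, ?_, ?_, ?_, ?_⟩ <;> simp only [cv] <;> push_cast <;> ring

theorem t_RK : S_RK := by
  intro F _ _ H r h n hn hn60 hf
  have h4 : (-(n : ℤ)) % 4 = 1 := by omega
  have hf' : ∀ T ∈ H, Finite (MP (cv (tn n T) ℚ)) := by
    intro T hT
    have h1 := hf T hT
    have e : (⟨0, ((34 * (tn n T : ℤ) : ℤ) : ℚ), 0, ((225 * (tn n T : ℤ) ^ 2 : ℤ) : ℚ), 0⟩ :
        WeierstrassCurve ℚ) = cv (tn n T) ℚ := by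
      unfold cv
      push_cast
      rfl
    rw [e] at h1
    exact h1
  have h2 := fin h hn hf'
  have hΔ : (EF F (-(n : ℤ))).Δ ≠ 0 := by
    rw [EF_Δ h4]
    refine mul_ne_zero (by norm_num) (pow_ne_zero 6 ?_)
    have : (-(n : ℤ)) ≠ 0 := by omega
    exact_mod_cast this
  have h3 : Finite (cv n F).toAffine.Point := h2
  exact Finite.of_injective _ ((vr (F := F) h4).fn_bij hΔ).injective

end Run7.h921.NF
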